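import Mathlib
import Pool.Agent.Helper71.SDX.Defs
import Pool.Agent.Helper71.SDX.Cube

/-!
# Random restriction
-/

set_option autoImplicit false

open scoped BigOperators Matrix

namespace SDX

namespace h78

open h71

variable {m b : ℕ}

/-- replace the bits on the graph of `S` by `z` -/
def upd (S : Fin m → Fin b) (x : Fin m × Fin b → Bool) (z : Fin m → Bool) :
    Fin m × Fin b → Bool :=
  fun e => if S e.1 = e.2 then z e.1 else x e

lemma rs_upd (S : Fin m → Fin b) (x : Fin m × Fin b → Bool) (z : Fin m → Bool) :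
    rs S (upd S x z) = z := by
  funext j
  simp [rs, upd]

lemma upd_upd_rs (S : Fin m → Fin b) (x : Fin m × Fin b → Bool) (z : Fin m → Bool) :
    upd S (upd S x z) (rs S x) = x := by
  funext e
  unfold upd rs
  by_cases h : S e.1 = e.2
  · simp only [h, if_true]
  · simp only [h, if_false]

lemma sum_upd (S : Fin m → Fin b) (F : (Fin m × Fin b → Bool) → ℝ) :
    ∑ x, ∑ z : Fin m → Bool, F (upd S x z) = 2 ^ m * ∑ x, F x := by
  have h1 : ∑ x, ∑ z : Fin m → Bool, F (upd S x z) =
      ∑ p : (Fin m × Fin b → Bool) × (Fin m → Bool), F (upd S p.1 p.2) := by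
    rw [Fintype.sum_prod_type]
  have hinv : Function.Involutive (fun p : (Fin m × Fin b → Bool) × (Fin m → Bool) =>
      ((upd S p.1 p.2, rs S p.1) : (Fin m × Fin b → Bool) × (Fin m → Bool))) := by
    rintro ⟨x, z⟩
    simp only [rs_upd, upd_upd_rs]
  have h2 : ∑ p : (Fin m × Fin b → Bool) × (Fin m → Bool), F (upd S p.1 p.2) =
      ∑ p : (Fin m × Fin b → Bool) × (Fin m → Bool), F p.1 :=
    (Equiv.sum_comp hinv.toPerm (fun p => F p.1))
  rw [h1, h2, Fintype.sum_prod_type]
  simp [Finset.mul_sum]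

/-- the part of `α` on the graph of `S` -/
def gr (S : Fin m → Fin b) (α : Finset (Fin m × Fin b)) : Finset (Fin m × Fin b) :=
  α.filter (fun e => S e.1 = e.2)

lemma chr_upd (S : Fin m → Fin b) (α : Finset (Fin m × Fin b)) (x : Fin m × Fin b → Bool)
    (z : Fin m → Bool) :
    chr α (upd S x z) = chr ((gr S α).image Prod.fst) z *
      chr (α.filter (fun e => ¬ S e.1 = e.2)) x := by
  unfold chr gr
  rw [← Finset.prod_filter_mul_prod_filter_not α (fun e => S e.1 = e.2)]
  congr 1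
  · rw [Finset.prod_image]
    · refine Finset.prod_congr rfl fun e he => ?_
      rw [Finset.mem_filter] at he
      simp [upd, he.2]
    · intro e he f hf hef
      simp only [Finset.coe_filter, Set.mem_ofPred_eq] at he hf
      refine Prod.ext hef ?_
      rw [← he.2, ← hf.2, hef]
  · refine Finset.prod_congr rfl fun e he => ?_
    rw [Finset.mem_filter] at he
    simp [upd, he.2]

lemma hi_eq (t : ℕ) (S : Fin m → Fin b) (g : (Fin m × Fin b → Bool) → ℝ)
    (x : Fin m × Fin b → Bool) :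
    hi t S g x = ∑ α, (if t < (gr S α).card then coef α g else 0) * chr α x := by
  unfold hi gr
  rw [Finset.sum_filter]
  refine Finset.sum_congr rfl fun α _ => ?_
  split_ifs <;> simp

lemma lo_eq (t : ℕ) (S : Fin m → Fin b) (g : (Fin m × Fin b → Bool) → ℝ)
    (x : Fin m × Fin b → Bool) :
    lo t S g x = ∑ α, (if t < (gr S α).card then 0 else coef α g) * chr α x := by
  unfold lo
  rw [hi_eq, inversion g x, ← Finset.sum_sub_distrib]
  refine Finset.sum_congr rfl fun α _ => ?_
  split_ifs <;> simp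

lemma coef_of_sum {ι : Type} [Fintype ι] [DecidableEq ι] (a : Finset ι → ℝ) (β : Finset ι) :
    coef β (fun x => ∑ α, a α * chr α x) = a β := by
  rw [coef_sum β Finset.univ a (fun α => chr α)]
  simp [coef_chr]

lemma sum_sq_of_sum {ι : Type} [Fintype ι] [DecidableEq ι] (a : Finset ι → ℝ) :
    ∑ x : ι → Bool, (∑ α, a α * chr α x) ^ 2 = 2 ^ Fintype.card ι * ∑ α, a α ^ 2 := by
  rw [parseval (fun x : ι → Bool => ∑ α, a α * chr α x)]
  simp only [coef_of_sum]

lemma sum_hi_sq (t : ℕ) (S : Fin m → Fin b) (g : (Fin m × Fin b → Bool) → ℝ) :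
    ∑ x, hi t S g x ^ 2 = 2 ^ Fintype.card (Fin m × Fin b) *
      ∑ α, if t < (gr S α).card then coef α g ^ 2 else 0 := by
  simp only [hi_eq]
  rw [sum_sq_of_sum]
  congr 1
  refine Finset.sum_congr rfl fun α _ => ?_
  split_ifs <;> simp

lemma sum_lo_sq_le (t : ℕ) (S : Fin m → Fin b) (g : (Fin m × Fin b → Bool) → ℝ) :
    ∑ x, lo t S g x ^ 2 ≤ ∑ x, g x ^ 2 := by
  simp only [lo_eq]
  rw [sum_sq_of_sum, parseval g]
  refine mul_le_mul_of_nonneg_left (Finset.sum_le_sum fun α _ => ?_) (by positivity)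
  split_ifs
  · simpa using sq_nonneg (coef α g)
  · exact le_rfl

lemma lo_upd_mem (t : ℕ) (S : Fin m → Fin b) (g : (Fin m × Fin b → Bool) → ℝ)
    (x : Fin m × Fin b → Bool) : (fun z => lo t S g (upd S x z)) ∈ Deg (Fin m) t := by
  have h : (fun z => lo t S g (upd S x z)) = fun z => ∑ α ∈ Finset.univ.filter
      (fun α : Finset (Fin m × Fin b) => (gr S α).card ≤ t),
      (coef α g * chr (α.filter (fun e => ¬ S e.1 = e.2)) x) *
        chr ((gr S α).image Prod.fst) z := by
    funext z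
    rw [lo_eq, Finset.sum_filter]
    refine Finset.sum_congr rfl fun α _ => ?_
    rw [chr_upd]
    by_cases h : t < (gr S α).card
    · simp [h, not_le.2 h]
    · simp only [h, if_false, not_lt.1 h, if_true]
      ring
  rw [h]
  refine sum_mem_Deg _ _ _ fun α hα => chr_mem_Deg ?_
  rw [Finset.mem_filter] at hα
  exact Finset.card_image_le.trans hα.2

lemma sum_D_lo {t : ℕ} (D : (Fin m → Bool) → ℝ)
    (hfool : ∀ g ∈ Deg (Fin m) t, 0 ≤ ∑ y, D y * g y ^ 2)
    (S : Fin m → Fin b) (g : (Fin m × Fin b → Bool) → ℝ) :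
    0 ≤ ∑ x, D (rs S x) * lo t S g x ^ 2 := by
  have h := sum_upd S (fun x => D (rs S x) * lo t S g x ^ 2)
  have h2 : 0 ≤ ∑ x, ∑ z : Fin m → Bool, D (rs S (upd S x z)) * lo t S g (upd S x z) ^ 2 := by
    refine Finset.sum_nonneg fun x _ => ?_
    have := hfool _ (lo_upd_mem t S g x)
    simpa only [rs_upd] using this
  have h3 : (0 : ℝ) < 2 ^ m := by positivity
  exact nonneg_of_mul_nonneg_right (h ▸ h2) h3

lemma count_sub (β : Finset (Fin m × Fin b)) :
    (Finset.univ.filter (fun S : Fin m → Fin b => ∀ e ∈ β, S e.1 = e.2)).card * b ^ β.card ≤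
      b ^ m := by
  by_cases hne : (Finset.univ.filter (fun S : Fin m → Fin b => ∀ e ∈ β, S e.1 = e.2)).Nonempty
  · obtain ⟨S₀, hS₀⟩ := hne
    rw [Finset.mem_filter] at hS₀
    have hcard : (β.image Prod.fst).card = β.card := by
      refine Finset.card_image_of_injOn ?_
      intro e he f hf hef
      refine Prod.ext hef ?_
      rw [← hS₀.2 e he, ← hS₀.2 f hf, hef]
    have hsub : (Finset.univ.filter (fun S : Fin m → Fin b => ∀ e ∈ β, S e.1 = e.2)) ⊆
        Fintype.piFinset (fun j : Fin m => Finset.univ.filter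
          (fun c : Fin b => ∀ e ∈ β, e.1 = j → c = e.2)) := by
      intro S hS
      rw [Finset.mem_filter] at hS
      rw [Fintype.mem_piFinset]
      intro j
      rw [Finset.mem_filter]
      refine ⟨Finset.mem_univ _, ?_⟩
      rintro e he rfl
      exact hS.2 e he
    have h1 := Finset.card_le_card hsub
    rw [Fintype.card_piFinset] at h1
    have h2 : b ^ β.card = ∏ j : Fin m, if j ∈ β.image Prod.fst then b else 1 := by
      rw [Finset.prod_ite_mem, Finset.univ_inter, Finset.prod_const, hcard]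
    calc _ ≤ (∏ j : Fin m, (Finset.univ.filter
          (fun c : Fin b => ∀ e ∈ β, e.1 = j → c = e.2)).card) * b ^ β.card :=
          Nat.mul_le_mul_right _ h1
      _ = ∏ j : Fin m, ((Finset.univ.filter
          (fun c : Fin b => ∀ e ∈ β, e.1 = j → c = e.2)).card *
            if j ∈ β.image Prod.fst then b else 1) := by
          rw [h2, Finset.prod_mul_distrib]
      _ ≤ ∏ _j : Fin m, b := by
          refine Finset.prod_le_prod' fun j _ => ?_
          split_ifs with hj
          · obtain ⟨e, he, rfl⟩ := Finset.mem_image.1 hj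
            have : (Finset.univ.filter
                (fun c : Fin b => ∀ f ∈ β, f.1 = e.1 → c = f.2)).card ≤ 1 := by
              rw [Finset.card_le_one]
              intro c hc d hd
              rw [Finset.mem_filter] at hc hd
              rw [hc.2 e he rfl, hd.2 e he rfl]
            nlinarith [Nat.zero_le b]
          · rw [mul_one]
            exact (Finset.card_le_univ _).trans (by simp)
      _ = b ^ m := by simp
  · rw [Finset.not_nonempty_iff_eq_empty] at hne
    rw [hne]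
    simp

lemma count_hi (t : ℕ) (α : Finset (Fin m × Fin b)) :
    (Finset.univ.filter (fun S : Fin m → Fin b => t < (gr S α).card)).card * b ^ (t + 1) ≤
      (α.card.choose (t + 1)) * b ^ m := by
  have hsub : (Finset.univ.filter (fun S : Fin m → Fin b => t < (gr S α).card)) ⊆
      (α.powersetCard (t + 1)).biUnion (fun β =>
        Finset.univ.filter (fun S : Fin m → Fin b => ∀ e ∈ β, S e.1 = e.2)) := by
    intro S hS
    rw [Finset.mem_filter] at hS
    obtain ⟨β, hβ, hc⟩ := Finset.exists_subset_card_eq (s := gr S α) (n := t + 1) hS.2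
    rw [Finset.mem_biUnion]
    refine ⟨β, ?_, ?_⟩
    · rw [Finset.mem_powersetCard]
      exact ⟨hβ.trans (Finset.filter_subset _ _), hc⟩
    · rw [Finset.mem_filter]
      exact ⟨Finset.mem_univ _, fun e he => (Finset.mem_filter.1 (hβ he)).2⟩
  have h1 := (Finset.card_le_card hsub).trans Finset.card_biUnion_le
  calc _ ≤ (∑ β ∈ α.powersetCard (t + 1),
        (Finset.univ.filter (fun S : Fin m → Fin b => ∀ e ∈ β, S e.1 = e.2)).card) *
          b ^ (t + 1) := Nat.mul_le_mul_right _ h1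
    _ = ∑ β ∈ α.powersetCard (t + 1),
        (Finset.univ.filter (fun S : Fin m → Fin b => ∀ e ∈ β, S e.1 = e.2)).card *
          b ^ (t + 1) := by rw [Finset.sum_mul]
    _ ≤ ∑ _β ∈ α.powersetCard (t + 1), b ^ m := by
        refine Finset.sum_le_sum fun β hβ => ?_
        rw [Finset.mem_powersetCard] at hβ
        rw [← hβ.2]
        exact count_sub β
    _ = (α.card.choose (t + 1)) * b ^ m := by
        rw [Finset.sum_const, Finset.card_powersetCard, smul_eq_mul]

end h78

open h71 h78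

/-- lower bound for one set -/
theorem restrict_one {m b t : ℕ} (κ ζ : ℝ) (hκ : 0 ≤ κ) (hζ : 0 < ζ)
    (D : (Fin m → Bool) → ℝ) (hD : ∀ y, |D y| ≤ κ)
    (hfool : ∀ g ∈ Deg (Fin m) t, 0 ≤ ∑ y, D y * g y ^ 2)
    (S : Fin m → Fin b) (g : (Fin m × Fin b → Bool) → ℝ) :
    -(κ * (ζ * ∑ x, g x ^ 2 + (1 + 1 / ζ) * ∑ x, hi t S g x ^ 2))
      ≤ ∑ x, D (rs S x) * g x ^ 2 := by
  have h0 := sum_D_lo D hfool S g
  have h1 := sum_lo_sq_le t S g
  have h2 : ∀ x, D (rs S x) * lo t S g x ^ 2 - κ * (ζ * lo t S g x ^ 2) -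
      κ * ((1 + 1 / ζ) * hi t S g x ^ 2) ≤ D (rs S x) * g x ^ 2 := by
    intro x
    have hg : g x = lo t S g x + hi t S g x := by
      unfold lo
      ring
    have hD' := abs_le.1 (hD (rs S x))
    set u := lo t S g x
    set v := hi t S g x
    set d := D (rs S x)
    rw [hg]
    -- `|2 u v| ≤ ζ u ^ 2 + v ^ 2 / ζ`
    have hk : |2 * (u * v)| ≤ ζ * u ^ 2 + 1 / ζ * v ^ 2 := by
      rw [abs_le]
      have e1 : ζ * u ^ 2 + 1 / ζ * v ^ 2 - 2 * (u * v) = (1 / ζ) * (ζ * u - v) ^ 2 := by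
        field_simp
        ring
      have e2 : ζ * u ^ 2 + 1 / ζ * v ^ 2 + 2 * (u * v) = (1 / ζ) * (ζ * u + v) ^ 2 := by
        field_simp
        ring
      have p1 : 0 ≤ (1 / ζ) * (ζ * u - v) ^ 2 := by positivity
      have p2 : 0 ≤ (1 / ζ) * (ζ * u + v) ^ 2 := by positivity
      constructor <;> linarith
    have hk2 : |d * (2 * (u * v))| ≤ κ * (ζ * u ^ 2 + 1 / ζ * v ^ 2) := by
      rw [abs_mul]
      exact mul_le_mul (hD _) hk (abs_nonneg _) hκ
    have hk3 := (abs_le.1 hk2).1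
    have hk4 : -(κ * v ^ 2) ≤ d * v ^ 2 := by
      have := mul_le_mul_of_nonneg_right hD'.1 (sq_nonneg v)
      linarith
    have e3 : d * (u + v) ^ 2 = d * u ^ 2 + d * (2 * (u * v)) + d * v ^ 2 := by ring
    rw [e3]
    have e4 : κ * ((1 + 1 / ζ) * v ^ 2) = κ * v ^ 2 + κ * (1 / ζ * v ^ 2) := by ring
    rw [e4]
    have e5 : κ * (ζ * u ^ 2 + 1 / ζ * v ^ 2) = κ * (ζ * u ^ 2) + κ * (1 / ζ * v ^ 2) := by ring
    rw [e5] at hk3
    linarith
  have h3 := Finset.sum_le_sum (s := Finset.univ) fun x _ => h2 x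
  rw [Finset.sum_sub_distrib, Finset.sum_sub_distrib] at h3
  simp only [← Finset.mul_sum] at h3
  have h4 : κ * (ζ * ∑ x, lo t S g x ^ 2) ≤ κ * (ζ * ∑ x, g x ^ 2) := by
    gcongr
  have e6 : κ * (ζ * ∑ x, g x ^ 2 + (1 + 1 / ζ) * ∑ x, hi t S g x ^ 2) =
      κ * (ζ * ∑ x, g x ^ 2) + κ * ((1 + 1 / ζ) * ∑ x, hi t S g x ^ 2) := by ring
  rw [e6]
  linarith

/-- average over all sets -/
theorem restrict_avg {m b t k : ℕ} (hb : 0 < b) (g : (Fin m × Fin b → Bool) → ℝ)
    (hg : g ∈ Deg (Fin m × Fin b) k) :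
    ∑ S : Fin m → Fin b, ∑ x, hi t S g x ^ 2
      ≤ (b : ℝ) ^ m * ((k.choose (t + 1) : ℝ) / (b : ℝ) ^ (t + 1)) * ∑ x, g x ^ 2 := by
  simp only [sum_hi_sq]
  have hpos : (0 : ℝ) ≤ 2 ^ Fintype.card (Fin m × Fin b) := by positivity
  rw [parseval g, ← Finset.mul_sum,
    mul_left_comm ((b : ℝ) ^ m * ((k.choose (t + 1) : ℝ) / (b : ℝ) ^ (t + 1)))]
  refine mul_le_mul_of_nonneg_left ?_ hpos
  rw [Finset.sum_comm, Finset.mul_sum]
  refine Finset.sum_le_sum fun α _ => ?_
  have h1 : (∑ S : Fin m → Fin b, if t < (gr S α).card then coef α g ^ 2 else (0 : ℝ)) =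
      ((Finset.univ.filter (fun S : Fin m → Fin b => t < (gr S α).card)).card : ℝ) *
        coef α g ^ 2 := by
    rw [← Finset.sum_filter, Finset.sum_const, nsmul_eq_mul]
  rw [h1]
  by_cases hα : k < α.card
  · rw [coef_eq_zero hg hα]
    simp
  · refine mul_le_mul_of_nonneg_right ?_ (sq_nonneg _)
    have hb' : (0 : ℝ) < (b : ℝ) ^ (t + 1) := by positivity
    rw [← mul_div_assoc, le_div_iff₀ hb']
    have h2 := count_hi t α
    have h3 : α.card.choose (t + 1) ≤ k.choose (t + 1) := Nat.choose_le_choose _ (not_lt.1 hα)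
    have h4 := h2.trans (Nat.mul_le_mul_right (b ^ m) h3)
    have h5 : (((Finset.univ.filter (fun S : Fin m → Fin b => t < (gr S α).card)).card *
      b ^ (t + 1) : ℕ) : ℝ) ≤ ((k.choose (t + 1) * b ^ m : ℕ) : ℝ) := by exact_mod_cast h4
    push_cast at h5
    linarith

/-- `hi` is linear -/
theorem hi_sum {m b t : ℕ} {ι : Type} [Fintype ι] (S : Fin m → Fin b) (a : ι → ℝ)
    (g : ι → (Fin m × Fin b → Bool) → ℝ) (x : Fin m × Fin b → Bool) :
    hi t S (fun x => ∑ i, a i * g i x) x = ∑ i, a i * hi t S (g i) x := by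
  unfold hi
  simp only [Finset.mul_sum]
  rw [Finset.sum_comm]
  refine Finset.sum_congr rfl fun α _ => ?_
  rw [coef_sum α Finset.univ a g, Finset.sum_mul]
  exact Finset.sum_congr rfl fun i _ => by ring

end SDX
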